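import Pool.Agent.Helper27.OT.Defs
import Pool.Agent.Helper37.OT.KL
import Pool.Agent.Helper42.OT.RL

/-!
# MP_2857a5_co : module RE (embedding of the roles)
-/

set_option autoImplicit false

open Finset
open scoped Classical

namespace OT

noncomputable section

variable {n : ℕ} {T : PTree n} {U : Finset (Fin n)} {R : Type}

private def reBuild (T : PTree n) (U : Finset (Fin n)) (S : Roles T U R) (J : Finset R)
    {V : Type} (hh : R → Fin n → V) (F : R → R → V → V) (v : Fin n) : V :=
  if h : (v : ℕ) = 0 ∨ T.par v ∈ U ∨ S.role (T.par v) ∉ J then hh (S.role v) v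
  else F (S.role v) (S.role (T.par v)) (reBuild T U S J hh F (T.par v))
termination_by (v : ℕ)
decreasing_by exact T.lt v (fun h0 => h (Or.inl h0))

theorem role_embed {V : Type} [Fintype V] {D : V → V → Prop} {ε : ℝ} (h : Host D ε)
    (h0 : ∀ i : Fin n, (i : ℕ) = 0 → i ∈ U) (S : Roles T U R) (J : Finset R)
    (W : R → Finset V)
    (hW : ∀ ρ ∈ J, (W ρ).card = (S.cls ρ).card ∧ Sample D ε (ε / 20) (W ρ))
    (hd : ∀ ρ ∈ J, ∀ ρ' ∈ J, ρ ≠ ρ' → Disjoint (W ρ) (W ρ')) :
    ∃ φ₀ : Fin n → V, (∀ v, v ∉ U → S.role v ∈ J → φ₀ v ∈ W (S.role v)) ∧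
      Set.InjOn φ₀ {v | v ∉ U ∧ S.role v ∈ J} ∧
      ∀ v, v ∉ U → S.role v ∈ J → T.par v ∉ U → S.role (T.par v) ∈ J →
        Adj D (T.sg v) (φ₀ (T.par v)) (φ₀ v) := by
  have hne : Nonempty V := by
    by_contra hV
    rw [not_nonempty_iff] at hV
    apply h.ne
    refine ⟨∅, ∅, ?_, ?_, ?_⟩ <;> simp [arcs]
  -- the maps into the sets of the roles
  have hh1 : ∀ ρ : R, ∃ g : Fin n → V, ρ ∈ J →
      (∀ v ∈ S.cls ρ, g v ∈ W ρ) ∧ Set.InjOn g (S.cls ρ : Set (Fin n)) := by
    intro ρ
    by_cases hρ : ρ ∈ J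
    · have e : S.cls ρ ≃ W ρ := Finset.equivOfCardEq (hW ρ hρ).1.symm
      refine ⟨fun v => if hv : v ∈ S.cls ρ then (e ⟨v, hv⟩ : V) else Classical.arbitrary V,
        fun _ => ⟨?_, ?_⟩⟩
      · intro v hv
        simp only [hv, dif_pos]
        exact (e ⟨v, hv⟩).2
      · intro v hv w hw hvw
        have hv' : v ∈ S.cls ρ := hv
        have hw' : w ∈ S.cls ρ := hw
        simp only [hv', hw', dif_pos] at hvw
        have := e.injective (Subtype.ext hvw)
        exact congrArg Subtype.val this
    · exact ⟨fun _ => Classical.arbitrary V, fun hc => absurd hc hρ⟩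
  choose hh hhp using hh1
  have hF1 : ∀ ρ π : R, ∃ f : V → V, ρ ∈ J → π ∈ J → (W π).card = (W ρ).card →
      (∀ x ∈ W π, f x ∈ W ρ) ∧ Set.InjOn f (W π : Set V) ∧
        ∀ x ∈ W π, Adj D (S.sgl ρ) x (f x) := by
    intro ρ π
    by_cases hc : ρ ∈ J ∧ π ∈ J ∧ (W π).card = (W ρ).card
    · obtain ⟨hρ, hπ, hcard⟩ := hc
      obtain ⟨f, hf⟩ := Host.matching h (hW π hπ).2 (hW ρ hρ).2 hcard (S.sgl ρ)
      exact ⟨f, fun _ _ _ => hf⟩
    · exact ⟨id, fun h1 h2 h3 => absurd ⟨h1, h2, h3⟩ hc⟩
  choose F hFp using hF1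
  set φ₀ : Fin n → V := reBuild T U S J hh F with hφ₀
  have hne0 : ∀ v : Fin n, v ∉ U → (v : ℕ) ≠ 0 := fun v hv hv0 => hv (h0 v hv0)
  have mem_cls : ∀ v : Fin n, v ∉ U → v ∈ S.cls (S.role v) := by
    intro v hv
    simp [Roles.cls, hv]
  have eq1 : ∀ v : Fin n, T.par v ∈ U ∨ S.role (T.par v) ∉ J → φ₀ v = hh (S.role v) v := by
    intro v hv
    rw [hφ₀, reBuild, dif_pos (Or.inr hv)]
  have eq2 : ∀ v : Fin n, v ∉ U → T.par v ∉ U → S.role (T.par v) ∈ J →
      φ₀ v = F (S.role v) (S.role (T.par v)) (φ₀ (T.par v)) := by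
    intro v hv hp hr
    have hcond : ¬ ((v : ℕ) = 0 ∨ T.par v ∈ U ∨ S.role (T.par v) ∉ J) := by
      rintro (h1 | h1 | h1)
      · exact hne0 v hv h1
      · exact hp h1
      · exact h1 hr
    rw [hφ₀]
    conv_lhs => rw [reBuild, dif_neg hcond]
  have hcardW : ∀ v : Fin n, v ∉ U → T.par v ∉ U → S.role v ∈ J → S.role (T.par v) ∈ J →
      (W (S.role (T.par v))).card = (W (S.role v)).card := by
    intro v hv hp h1 h2
    rw [(hW _ h2).1, (hW _ h1).1, S.cls_card hv hp]
  have hA : ∀ k : ℕ, ∀ v : Fin n, (v : ℕ) = k → v ∉ U → S.role v ∈ J → φ₀ v ∈ W (S.role v) := by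
    intro k
    induction k using Nat.strong_induction_on with
    | _ k ih =>
      intro v hvk hv hr
      by_cases hc : T.par v ∈ U ∨ S.role (T.par v) ∉ J
      · rw [eq1 v hc]
        exact (hhp _ hr).1 v (mem_cls v hv)
      · push Not at hc
        rw [eq2 v hv hc.1 hc.2]
        have hlt : T.par v < v := T.lt v (hne0 v hv)
        have h3 := ih (T.par v : ℕ) (by rw [← hvk]; exact hlt) (T.par v) rfl hc.1 hc.2
        exact (hFp _ _ hr hc.2 (hcardW v hv hc.1 hr hc.2)).1 _ h3
  have hA' : ∀ v : Fin n, v ∉ U → S.role v ∈ J → φ₀ v ∈ W (S.role v) :=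
    fun v => hA v v rfl
  refine ⟨φ₀, hA', ?_, ?_⟩
  · -- injectivity
    have hB : ∀ k : ℕ, ∀ v w : Fin n, (v : ℕ) = k → v ∉ U → S.role v ∈ J → w ∉ U →
        S.role w ∈ J → φ₀ v = φ₀ w → v = w := by
      intro k
      induction k using Nat.strong_induction_on with
      | _ k ih =>
        intro v w hvk hv hrv hw hrw hvw
        have hrole : S.role v = S.role w := by
          by_contra hcon
          have hdis := hd _ hrv _ hrw hcon
          have h1 := hA' v hv hrv
          have h2 := hA' w hw hrw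
          rw [← hvw] at h2
          exact (Finset.disjoint_left.1 hdis h1) h2
        by_cases hpv : T.par v ∈ U
        · have hpw : T.par w ∈ U := by
            by_contra hpw
            have e1 := S.top v hv hpv
            have e2 := S.par w hw hpw
            rw [hrole, e2] at e1
            exact absurd e1 (by simp)
          rw [eq1 v (Or.inl hpv), eq1 w (Or.inl hpw), hrole] at hvw
          rw [hrole] at hrv
          refine (hhp _ hrv).2 ?_ ?_ hvw
          · have := mem_cls v hv
            rw [hrole] at this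
            exact this
          · exact mem_cls w hw
        · have hpw : T.par w ∉ U := by
            intro hpw
            have e1 := S.par v hv hpv
            have e2 := S.top w hw hpw
            rw [← hrole, e1] at e2
            exact absurd e2 (by simp)
          have e1 := S.par v hv hpv
          have e2 := S.par w hw hpw
          have hrp : S.role (T.par v) = S.role (T.par w) := by
            rw [hrole, e2] at e1
            exact (Option.some.inj e1).symm
          by_cases hJ : S.role (T.par v) ∈ J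
          · have hJ' : S.role (T.par w) ∈ J := hrp ▸ hJ
            rw [eq2 v hv hpv hJ, eq2 w hw hpw hJ', ← hrole, ← hrp] at hvw
            have h3 := hFp (S.role v) (S.role (T.par v)) hrv hJ (hcardW v hv hpv hrv hJ)
            have hm1 := hA' (T.par v) hpv hJ
            have hm2 := hA' (T.par w) hpw hJ'
            rw [← hrp] at hm2
            have h4 : φ₀ (T.par v) = φ₀ (T.par w) := h3.2.1 hm1 hm2 hvw
            have hlt : T.par v < v := T.lt v (hne0 v hv)
            have h5 : T.par v = T.par w :=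
              ih (T.par v : ℕ) (by rw [← hvk]; exact hlt) (T.par v) (T.par w) rfl hpv hJ hpw hJ' h4
            exact S.inj v w hv hw hpv h5 hrole
          · have hJ' : S.role (T.par w) ∉ J := hrp ▸ hJ
            rw [eq1 v (Or.inr hJ), eq1 w (Or.inr hJ'), hrole] at hvw
            rw [hrole] at hrv
            refine (hhp _ hrv).2 ?_ ?_ hvw
            · have := mem_cls v hv
              rw [hrole] at this
              exact this
            · exact mem_cls w hw
    intro v hv w hw hvw
    exact hB v v w rfl hv.1 hv.2 hw.1 hw.2 hvw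
  · intro v hv hr hp hrp
    have h3 := hFp (S.role v) (S.role (T.par v)) hr hrp (hcardW v hv hp hr hrp)
    have h4 := h3.2.2 _ (hA' (T.par v) hp hrp)
    rw [eq2 v hv hp hrp, ← S.sg v hv]
    exact h4

end

end OT
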